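import Mathlib

/-! Sequences which satisfy linear recurrences with constant coefficients form an algebra. -/

set_option autoImplicit false

namespace Pool.Agent.X332.KI

open MvPolynomial Filter

variable {k : Type} [Field k]

/-- the shift -/
def sh : (ℕ → k) →ₐ[k] (ℕ → k) where
  toFun w := fun m => w (m + 1)
  map_one' := rfl
  map_mul' _ _ := rfl
  map_zero' := rfl
  map_add' _ _ := rfl
  commutes' _ := rfl

/-- The sequence lies in a finite-dimensional shift-invariant space. -/
def FD (w : ℕ → k) : Prop :=
  ∃ W : Submodule k (ℕ → k), W.FG ∧ W.map (sh (k := k)).toLinearMap ≤ W ∧ w ∈ W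

theorem FD.add {w z : ℕ → k} (hw : FD w) (hz : FD z) : FD (w + z) := by
  obtain ⟨W, h1, h2, h3⟩ := hw
  obtain ⟨Z, h4, h5, h6⟩ := hz
  refine ⟨W ⊔ Z, h1.sup h4, ?_, add_mem (Submodule.mem_sup_left h3) (Submodule.mem_sup_right h6)⟩
  rw [Submodule.map_sup]
  exact sup_le_sup h2 h5

theorem FD.mul {w z : ℕ → k} (hw : FD w) (hz : FD z) : FD (w * z) := by
  obtain ⟨W, h1, h2, h3⟩ := hw
  obtain ⟨Z, h4, h5, h6⟩ := hz
  refine ⟨W * Z, h1.mul h4, ?_, Submodule.mul_mem_mul h3 h6⟩
  rw [Submodule.map_mul]
  exact mul_le_mul' h2 h5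

theorem FD.const (c : k) : FD (fun _ => c) := by
  refine ⟨Submodule.span k {1}, Submodule.fg_span (Set.finite_singleton _), ?_, ?_⟩
  · rw [Submodule.map_span, Set.image_singleton]
    exact Submodule.span_mono (by
      rintro _ rfl
      rfl)
  · have h : (fun _ => c : ℕ → k) = c • (1 : ℕ → k) := by
      funext m
      simp
    rw [h]
    exact Submodule.smul_mem _ _ (Submodule.mem_span_singleton_self _)

theorem FD.poly {r : ℕ} {v : ℕ → Fin r → k} (hv : ∀ l, FD fun m => v m l)
    (Φ : MvPolynomial (Fin r) k) : FD fun m => eval (v m) Φ := by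
  induction Φ using MvPolynomial.induction_on with
  | C a => simpa using FD.const a
  | add a b ha hb =>
    have := ha.add hb
    simpa [Pi.add_def] using this
  | mul_X a i ha =>
    have := ha.mul (hv i)
    simpa [Pi.mul_def] using this

theorem FD.of_rec {w : ℕ → k} {n : ℕ} {c : Fin n → k} (hc : c ≠ 0) {a : ℕ}
    (h : ∀ m ≥ a, ∑ s, c s * w (m + s) = 0) : FD w := by
  classical
  obtain ⟨r, hr, hmax⟩ : ∃ r : Fin n, c r ≠ 0 ∧ ∀ s, r < s → c s = 0 := by
    obtain ⟨i, hi⟩ := Function.ne_iff.1 hc
    obtain ⟨r, hr, hmax⟩ := Finset.exists_max_image (Finset.univ.filter fun s => c s ≠ 0)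
      (fun s => s) ⟨i, by simpa using hi⟩
    refine ⟨r, by simpa using hr, fun s hs => ?_⟩
    by_contra h0
    exact absurd (hmax s (by simpa using h0)) (not_le.2 hs)
  let W : Submodule k (ℕ → k) :=
    { carrier := {z | ∀ m ≥ a, ∑ s, c s * z (m + s) = 0}
      add_mem' := by
        intro z z' hz hz' m hm
        simp only [Pi.add_apply, mul_add, Finset.sum_add_distrib]
        rw [hz m hm, hz' m hm, add_zero]
      zero_mem' := by
        intro m _
        simp
      smul_mem' := by
        intro b z hz m hm
        have h1 : ∑ s, c s * (b • z) (m + s) = b * ∑ s, c s * z (m + s) := by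
          rw [Finset.mul_sum]
          refine Finset.sum_congr rfl fun s _ => ?_
          rw [Pi.smul_apply, smul_eq_mul]
          ring
        rw [h1, hz m hm, mul_zero] }
  let T : W →ₗ[k] (Fin (a + n) → k) :=
    { toFun := fun z i => (z : ℕ → k) i
      map_add' := fun _ _ => rfl
      map_smul' := fun _ _ => rfl }
  have hT : Function.Injective T := by
    rw [injective_iff_map_eq_zero]
    rintro ⟨z, hz⟩ h0
    have h1 : ∀ i < a + n, z i = 0 := fun i hi => congrFun h0 ⟨i, hi⟩
    have h2 : ∀ m, z m = 0 := by
      intro m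
      induction m using Nat.strong_induction_on with
      | _ m ih =>
        rcases Nat.lt_or_ge m (a + n) with h3 | h3
        · exact h1 m h3
        · have h4 := hz (m - r) (by have := r.2; omega)
          rw [Finset.sum_eq_single r] at h4
          · have h5 : m - (r : ℕ) + r = m := by have := r.2; omega
            rw [h5] at h4
            exact (mul_eq_zero.1 h4).resolve_left hr
          · intro s _ hs
            rcases lt_or_gt_of_ne hs with h5 | h5
            · rw [ih _ (by have := r.2; have : (s : ℕ) < r := h5; omega), mul_zero]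
            · rw [hmax s h5, zero_mul]
          · intro h5
            exact absurd (Finset.mem_univ _) h5
    exact Subtype.ext (funext h2)
  refine ⟨W, ?_, ?_, h⟩
  · have : FiniteDimensional k W := FiniteDimensional.of_injective T hT
    exact (Submodule.fg_iff_finiteDimensional W).2 this
  · rintro _ ⟨z, hz, rfl⟩ m hm
    have h1 := hz (m + 1) (by omega)
    rw [← h1]
    refine Finset.sum_congr rfl fun s _ => ?_
    change c s * z (m + s + 1) = _
    congr 2
    ring

theorem FD.exists_rec {w : ℕ → k} (hw : FD w) :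
    ∃ (n : ℕ) (c : ℕ → k), (∃ s ≤ n, c s ≠ 0) ∧
      ∀ m, ∑ s ∈ Finset.range (n + 1), c s * w (m + s) = 0 := by
  obtain ⟨W, h1, h2, h3⟩ := hw
  have : FiniteDimensional k W := (Submodule.fg_iff_finiteDimensional W).1 h1
  have h4 : ∀ i : ℕ, (fun m => w (m + i)) ∈ W := by
    intro i
    induction i with
    | zero => exact h3
    | succ i ih =>
      have h5 := h2 (Submodule.mem_map_of_mem (f := (sh (k := k)).toLinearMap) ih)
      have h6 : (sh (k := k)).toLinearMap (fun m => w (m + i)) = fun m => w (m + (i + 1)) := by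
        funext m
        change w (m + 1 + i) = _
        congr 1
        ring
      rwa [h6] at h5
  have h5 : ¬ LinearIndependent k (fun i : Fin (Module.finrank k W + 1) =>
      (⟨fun m => w (m + i), h4 i⟩ : W)) := by
    intro hli
    have := hli.fintype_card_le_finrank
    rw [Fintype.card_fin] at this
    omega
  rw [Fintype.not_linearIndependent_iff] at h5
  obtain ⟨g, hg, i, hi⟩ := h5
  refine ⟨Module.finrank k W, fun s => if hs : s < Module.finrank k W + 1 then g ⟨s, hs⟩ else 0,
    ⟨i, by have := i.2; omega, by beta_reduce; rwa [dif_pos i.2]⟩, fun m => ?_⟩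
  rw [Finset.sum_range]
  have h6 := congrFun (congrArg Subtype.val hg) m
  simp only [Submodule.coe_sum, Submodule.coe_smul, Finset.sum_apply, Pi.smul_apply,
    smul_eq_mul] at h6
  simp only [Fin.is_lt, dif_pos]
  exact h6

end Pool.Agent.X332.KI
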