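import Mathlib
import Pool.Agent.X332.KI.Rec

/-! Sequences with constant-coefficient recurrences are exponential polynomials. -/

set_option autoImplicit false

namespace Pool.Agent.X332.KI

open Filter

variable {k : Type} [Field k]

/-- the shift as a linear map -/
noncomputable def E (k : Type) [Field k] : Module.End k (ℕ → k) := (sh (k := k)).toLinearMap

theorem E_apply (z : ℕ → k) (m : ℕ) : E k z m = z (m + 1) := rfl

theorem newton (N : ℕ) : ∀ z : ℕ → k, ((E k - 1) ^ N) z = 0 →
    ∃ c : ℕ → k, ∀ m : ℕ, z m = ∑ i ∈ Finset.range N, c i * (m.choose i : k) := by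
  induction N with
  | zero =>
    intro z hz
    refine ⟨fun _ => 0, fun m => ?_⟩
    rw [pow_zero, Module.End.one_apply] at hz
    rw [hz]
    simp
  | succ N ih =>
    intro z hz
    rw [pow_succ, Module.End.mul_apply] at hz
    obtain ⟨c, hc⟩ := ih _ hz
    refine ⟨fun i => Nat.casesOn i (z 0) c, fun m => ?_⟩
    rw [Finset.sum_range_succ']
    simp only [Nat.choose_zero_right, Nat.cast_one, mul_one]
    induction m with
    | zero => simp
    | succ m ihm =>
      have h1 := hc m
      rw [LinearMap.sub_apply, Pi.sub_apply, E_apply, Module.End.one_apply] at h1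
      have h2 : z (m + 1) = z m + ∑ i ∈ Finset.range N, c i * (m.choose i : k) := by
        rw [← h1]
        ring
      rw [h2, ihm, add_right_comm, ← Finset.sum_add_distrib]
      congr 1
      refine Finset.sum_congr rfl fun i _ => ?_
      rw [Nat.choose_succ_succ, Nat.cast_add]
      ring

theorem poly_of_diff [CharZero k] {N : ℕ} {z : ℕ → k} (hz : ((E k - 1) ^ N) z = 0) :
    ∃ q : Polynomial k, ∀ m : ℕ, z m = q.eval (m : k) := by
  obtain ⟨c, hc⟩ := newton N z hz
  refine ⟨∑ i ∈ Finset.range N, Polynomial.C (c i * ((i.factorial : k))⁻¹) *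
    descPochhammer k i, fun m => ?_⟩
  rw [hc m, Polynomial.eval_finset_sum]
  refine Finset.sum_congr rfl fun i _ => ?_
  rw [Polynomial.eval_mul, Polynomial.eval_C, descPochhammer_eval_eq_descFactorial,
    Nat.descFactorial_eq_factorial_mul_choose, Nat.cast_mul]
  have h : (i.factorial : k) ≠ 0 := Nat.cast_ne_zero.2 (Nat.factorial_ne_zero i)
  field_simp

theorem twist {lam : k} (hlam : lam ≠ 0) (N : ℕ) : ∀ w : ℕ → k,
    ((E k - lam • (1 : Module.End k (ℕ → k))) ^ N) w = 0 →
      ((E k - 1) ^ N) (fun m => w m / lam ^ m) = 0 := by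
  induction N with
  | zero =>
    intro w hw
    rw [pow_zero, Module.End.one_apply] at hw ⊢
    rw [hw]
    funext m
    simp
  | succ N ih =>
    intro w hw
    rw [pow_succ, Module.End.mul_apply] at hw
    have h1 := ih _ hw
    rw [pow_succ, Module.End.mul_apply]
    have h2 : (E k - 1) (fun m => w m / lam ^ m) = lam⁻¹ • fun m =>
        (E k - lam • (1 : Module.End k (ℕ → k))) w m / lam ^ m := by
      funext m
      simp only [LinearMap.sub_apply, Pi.sub_apply, E_apply, Module.End.one_apply,
        LinearMap.smul_apply, Pi.smul_apply, smul_eq_mul]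
      rw [pow_succ]
      field_simp
    rw [h2, map_smul, h1, smul_zero]

/-- exponential polynomials, for large indices -/
def EP (w : ℕ → k) : Prop :=
  ∃ (S : Finset k) (q : k → Polynomial k), (0 : k) ∉ S ∧
    ∀ᶠ m : ℕ in atTop, w m = ∑ lam ∈ S, (q lam).eval (m : k) * lam ^ m

theorem EP.extend {w : ℕ → k} {S T : Finset k} {q : k → Polynomial k} (hST : S ⊆ T)
    (h : ∀ᶠ m : ℕ in atTop, w m = ∑ lam ∈ S, (q lam).eval (m : k) * lam ^ m) :
    ∃ q' : k → Polynomial k,
      ∀ᶠ m : ℕ in atTop, w m = ∑ lam ∈ T, (q' lam).eval (m : k) * lam ^ m := by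
  classical
  refine ⟨fun lam => if lam ∈ S then q lam else 0, ?_⟩
  filter_upwards [h] with m hm
  rw [hm, ← Finset.sum_subset hST (fun lam _ h1 => by simp [h1])]
  refine Finset.sum_congr rfl fun lam h1 => ?_
  simp [h1]

theorem EP.add {w z : ℕ → k} (hw : EP w) (hz : EP z) : EP (w + z) := by
  classical
  obtain ⟨S, q, h1, h2⟩ := hw
  obtain ⟨T, r, h3, h4⟩ := hz
  obtain ⟨q', h5⟩ := EP.extend (Finset.subset_union_left (s₂ := T)) h2
  obtain ⟨r', h6⟩ := EP.extend (Finset.subset_union_right (s₁ := S)) h4
  refine ⟨S ∪ T, fun lam => q' lam + r' lam, by simp [h1, h3], ?_⟩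
  filter_upwards [h5, h6] with m e1 e2
  rw [Pi.add_apply, e1, e2, ← Finset.sum_add_distrib]
  refine Finset.sum_congr rfl fun lam _ => ?_
  rw [Polynomial.eval_add]
  ring

theorem EP.zero : EP (0 : ℕ → k) := ⟨∅, fun _ => 0, by simp, Eventually.of_forall fun m => by simp⟩

theorem EP.of_gen [CharZero k] {lam : k} {N : ℕ} {w : ℕ → k}
    (hw : ((E k - lam • (1 : Module.End k (ℕ → k))) ^ N) w = 0) : EP w := by
  by_cases hlam : lam = 0
  · subst hlam
    rw [zero_smul, sub_zero] at hw
    have h1 : ∀ (n : ℕ) (z : ℕ → k) (m : ℕ), ((E k) ^ n) z m = z (m + n) := by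
      intro n
      induction n with
      | zero =>
        intro z m
        rfl
      | succ n ih =>
        intro z m
        rw [pow_succ, Module.End.mul_apply, ih, E_apply]
        rfl
    refine ⟨∅, fun _ => 0, by simp, ?_⟩
    filter_upwards [eventually_ge_atTop N] with m hm
    have h2 := h1 N w (m - N)
    rw [hw, Nat.sub_add_cancel hm] at h2
    rw [← h2]
    simp
  · obtain ⟨q, hq⟩ := poly_of_diff (twist hlam N w hw)
    refine ⟨{lam}, fun _ => q, by simpa using Ne.symm hlam, Eventually.of_forall fun m => ?_⟩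
    rw [Finset.sum_singleton, ← hq m, div_mul_cancel₀]
    exact pow_ne_zero _ hlam

/-- Sequences in finite-dimensional shift-invariant spaces are exponential polynomials. -/
theorem FD.ep [CharZero k] [IsAlgClosed k] {w : ℕ → k} (hw : FD w) : EP w := by
  obtain ⟨W, h1, h2, h3⟩ := hw
  have : FiniteDimensional k W := (Submodule.fg_iff_finiteDimensional W).1 h1
  have hE : ∀ z ∈ W, E k z ∈ W := fun z hz => h2 (Submodule.mem_map_of_mem hz)
  let g : Module.End k W := (E k).restrict hE
  have hg : ∀ (lam : k) (N : ℕ) (z : W), (((g - lam • (1 : Module.End k W)) ^ N) z : ℕ → k) =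
      ((E k - lam • (1 : Module.End k (ℕ → k))) ^ N) z := by
    intro lam N
    induction N with
    | zero =>
      intro z
      rfl
    | succ N ih =>
      intro z
      rw [pow_succ, Module.End.mul_apply, ih, pow_succ, Module.End.mul_apply]
      rfl
  have h4 : (⟨w, h3⟩ : W) ∈ ⨆ lam, g.maxGenEigenspace lam := by
    rw [Module.End.iSup_maxGenEigenspace_eq_top]
    trivial
  refine Submodule.iSup_induction (fun lam => g.maxGenEigenspace lam)
    (motive := fun z : W => EP (z : ℕ → k)) h4 (fun lam z hz => ?_) EP.zero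
    (fun z z' hz hz' => hz.add hz')
  obtain ⟨N, hN⟩ := (Module.End.mem_maxGenEigenspace g lam z).1 hz
  apply EP.of_gen (lam := lam) (N := N)
  rw [← hg, hN]
  rfl

end Pool.Agent.X332.KI
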