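import Pool.Agent.X332.KI.Disc
import Pool.Agent.X332.KI.Exp

/-! Slowly growing integral functions on étale orbits are polynomial on arithmetic progressions. -/

set_option autoImplicit false

namespace Pool.Agent.X332.KI

open MvPolynomial Filter

/-- iterated differences -/
def df {A : Type} [Sub A] : ℕ → (ℕ → A) → ℕ → A
  | 0, g => g
  | n + 1, g => df n fun j => g (j + 1) - g j

theorem df_E {k : Type} [Field k] (n : ℕ) : ∀ z : ℕ → k, ((E k - 1) ^ n) z = df n z := by
  induction n with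
  | zero =>
    intro z
    rfl
  | succ n ih =>
    intro z
    rw [pow_succ, Module.End.mul_apply, ih]
    rfl

theorem df_map {A B : Type} [Ring A] [Ring B] (φ : A →+* B) (n : ℕ) : ∀ g : ℕ → A,
    df n (fun j => φ (g j)) = fun j => φ (df n g j) := by
  induction n with
  | zero =>
    intro g
    rfl
  | succ n ih =>
    intro g
    change df n (fun j => φ (g (j + 1)) - φ (g j)) = fun j => φ (df n (fun j => g (j + 1) - g j) j)
    rw [← ih]
    congr 1
    funext j
    rw [map_sub]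

theorem df_zero {A : Type} [AddCommGroup A] (j : ℕ) : ∀ g : ℕ → A, (∀ i, df i g 0 = 0) → g j = 0 := by
  induction j with
  | zero =>
    intro g h
    exact h 0
  | succ j ih =>
    intro g h
    have h1 := ih g h
    have h2 := ih (fun j => g (j + 1) - g j) (fun i => h (i + 1))
    simp only [h1, sub_zero] at h2
    exact h2

theorem df_add {A : Type} [AddCommGroup A] (m n : ℕ) : ∀ g : ℕ → A,
    df (n + m) g = df m (df n g) := by
  induction n with
  | zero =>
    intro g
    rw [zero_add]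
    rfl
  | succ n ih =>
    intro g
    have h : n + 1 + m = (n + m) + 1 := by ring
    rw [h]
    exact ih _

theorem df_bound {θ : ℝ} (n : ℕ) : ∀ (g : ℕ → ℤ) (B : ℝ),
    (∀ j, |(g j : ℝ)| ≤ B * θ ^ j) →
      ∀ j, |((df n g j : ℤ) : ℝ)| ≤ B * (1 + θ) ^ n * θ ^ j := by
  induction n with
  | zero =>
    intro g B h j
    simpa [df] using h j
  | succ n ih =>
    intro g B h j
    have h1 := ih (fun j => g (j + 1) - g j) (B * (1 + θ)) (fun j => by
      push_cast
      refine (abs_sub _ _).trans ?_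
      refine (add_le_add (h (j + 1)) (h j)).trans (le_of_eq ?_)
      ring) j
    refine h1.trans (le_of_eq ?_)
    ring

variable {σ : Type} [Fintype σ] [DecidableEq σ]

omit [Fintype σ] [DecidableEq σ] in
theorem df_dvd {A : Type} [CommRing A] {P : A} {G H : σ → MvPolynomial σ A}
    (hG : ∀ i, G i = X i + C P * H i) {y : ℕ → σ → A}
    (hy : ∀ j i, y (j + 1) i = eval (y j) (G i)) (n : ℕ) : ∀ (c : A) (φ : MvPolynomial σ A),
    ∃ ψ : MvPolynomial σ A, df n (fun j => c * eval (y j) φ) = fun j =>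
      c * P ^ n * eval (y j) ψ := by
  induction n with
  | zero =>
    intro c φ
    refine ⟨φ, ?_⟩
    funext j
    simp [df]
  | succ n ih =>
    intro c φ
    obtain ⟨ψ, hψ⟩ := near_id hG φ
    have hd : (fun j => c * eval (y (j + 1)) φ - c * eval (y j) φ) =
        fun j => (c * P) * eval (y j) ψ := by
      funext j
      have h1 : y (j + 1) = fun i => eval (y j) (G i) := funext (hy j)
      rw [h1, ← eval_bind, hψ, map_add, map_mul, eval_C]
      ring
    obtain ⟨ψ', hψ'⟩ := ih (c * P) ψ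
    refine ⟨ψ', ?_⟩
    change df n (fun j => c * eval (y (j + 1)) φ - c * eval (y j) φ) = _
    rw [hd, hψ']
    funext j
    ring

theorem unit_of_not_dvd {p : ℕ} [Fact p.Prime] {a : ℤ_[p]} (h : ¬ (p : ℤ_[p]) ∣ a) : IsUnit a := by
  by_contra hcon
  apply h
  have h1 : a ∈ IsLocalRing.maximalIdeal ℤ_[p] := (IsLocalRing.mem_maximalIdeal a).2 hcon
  rwa [PadicInt.maximalIdeal_eq_span_p, Ideal.mem_span_singleton] at h1

theorem exists_period2 {p : ℕ} [Fact p.Prime] {f : σ → MvPolynomial σ ℤ_[p]} {u : ℕ → σ → ℤ_[p]}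
    (hdet : ∀ m, ¬ (p : ℤ_[p]) ∣ (jac f (u m)).det) (e : ℕ) :
    ∃ a L : ℕ, 0 < L ∧ L ≤ p ^ (e * (Fintype.card σ ^ 2 + 2 * Fintype.card σ)) ∧
      (∀ i, ((p : ℤ_[p]) ^ e) ^ 2 ∣ u (a + L) i - u a i) ∧
      ∀ i j, (p : ℤ_[p]) ^ e ∣ pr f u a L i j - (1 : Matrix σ σ ℤ_[p]) i j := by
  have hp : p.Prime := Fact.out
  have : NeZero (p ^ e) := ⟨pow_ne_zero _ hp.ne_zero⟩
  have : NeZero (p ^ (2 * e)) := ⟨pow_ne_zero _ hp.ne_zero⟩
  let Φ : ℕ → (σ → ZMod (p ^ (2 * e))) × Matrix σ σ (ZMod (p ^ e)) := fun m =>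
    (fun i => PadicInt.toZModPow (2 * e) (u m i),
      (PadicInt.toZModPow (p := p) e).mapMatrix (pr f u 0 m))
  have hcard : Fintype.card ((σ → ZMod (p ^ (2 * e))) × Matrix σ σ (ZMod (p ^ e))) =
      p ^ (e * (Fintype.card σ ^ 2 + 2 * Fintype.card σ)) := by
    have h1 : Fintype.card (Matrix σ σ (ZMod (p ^ e))) = p ^ (e * Fintype.card σ ^ 2) := by
      rw [← Nat.card_eq_fintype_card]
      change Nat.card (σ → σ → ZMod (p ^ e)) = _
      rw [Nat.card_fun, Nat.card_fun, Nat.card_zmod, Nat.card_eq_fintype_card, ← pow_mul,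
        ← pow_mul]
      congr 1
      ring
    rw [Fintype.card_prod, h1, Fintype.card_fun, ZMod.card, ← pow_mul, ← pow_add]
    congr 1
    ring
  obtain ⟨a, b, hab, h⟩ := Fintype.exists_ne_map_eq_of_card_lt
    (fun m : Fin (Fintype.card ((σ → ZMod (p ^ (2 * e))) × Matrix σ σ (ZMod (p ^ e))) + 1) => Φ m)
    (by simp)
  wlog hlt : a < b generalizing a b
  · exact this b a hab.symm h.symm (lt_of_le_of_ne (not_lt.1 hlt) hab.symm)
  have hlt' : (a : ℕ) < b := hlt
  refine ⟨a, b - a, by omega, ?_, ?_, ?_⟩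
  · have := b.2
    rw [← hcard]
    omega
  · intro i
    have h1 := congrFun (congrArg Prod.fst h) i
    change PadicInt.toZModPow (2 * e) (u a i) = PadicInt.toZModPow (2 * e) (u b i) at h1
    rw [Nat.add_sub_cancel' hlt'.le, ← pow_mul, mul_comm e 2]
    rw [dvd_iff, map_sub, h1, sub_self]
  · have h1 := congrArg Prod.snd h
    change (PadicInt.toZModPow (p := p) e).mapMatrix (pr f u 0 a) =
      (PadicInt.toZModPow (p := p) e).mapMatrix (pr f u 0 b) at h1
    have hb : (b : ℕ) = a + (b - a) := by omega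
    rw [hb, pr_add, map_mul] at h1
    have hd : ∀ n, IsUnit (pr f u 0 n) := by
      intro n
      induction n with
      | zero => exact isUnit_one
      | succ n ih =>
        rw [pr]
        exact ((Matrix.isUnit_iff_isUnit_det _).2 (unit_of_not_dvd (hdet _))).mul ih
    have h2 : (PadicInt.toZModPow (p := p) e).mapMatrix (pr f u a (b - a)) = 1 := by
      have hu' : IsUnit ((PadicInt.toZModPow (p := p) e).mapMatrix (pr f u 0 a)) :=
        (hd a).map _
      exact (hu'.mul_right_cancel (by rw [one_mul]; exact h1)).symm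
    intro i j
    have h3 := congrFun (congrFun h2 i) j
    rw [RingHom.mapMatrix_apply, Matrix.map_apply] at h3
    rw [dvd_iff, map_sub, h3]
    by_cases hij : i = j
    · subst hij
      simp
    · rw [Matrix.one_apply_ne hij, Matrix.one_apply_ne hij, map_zero, sub_self]

/-- divisibility of the differences along arithmetic progressions -/
theorem star2 {p : ℕ} [Fact p.Prime] {f : σ → MvPolynomial σ ℤ_[p]} {u : ℕ → σ → ℤ_[p]}
    (hu : ∀ m i, u (m + 1) i = eval (u m) (f i))
    (hdet : ∀ m, ¬ (p : ℤ_[p]) ∣ (jac f (u m)).det) (d : ℕ) :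
    ∃ a L : ℕ, 0 < L ∧ L ≤ p ^ (d * (Fintype.card σ ^ 2 + 2 * Fintype.card σ)) ∧
      ∀ (φ : MvPolynomial σ ℤ_[p]) (n j : ℕ),
        (p : ℤ_[p]) ^ (d * n) ∣ df n (fun j => eval (u (a + L * j)) φ) j := by
  have hp : p.Prime := Fact.out
  obtain ⟨a, L, hL, hL', h1, h2⟩ := exists_period2 hdet d
  refine ⟨a, L, hL, hL', ?_⟩
  choose e he using h1
  choose b hb using h2
  set P : ℤ_[p] := (p : ℤ_[p]) ^ d with hP
  choose R hR using disc P hu a L
  let H : σ → MvPolynomial σ ℤ_[p] := fun i => C (e i) + ∑ j, C (b i j) * X j + R i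
  let G : σ → MvPolynomial σ ℤ_[p] := fun i => X i + C P * H i
  let y : ℕ → σ → ℤ_[p] := fun j => Nat.rec (fun _ => 0) (fun _ v i => eval v (G i)) j
  have hy : ∀ j i, y (j + 1) i = eval (y j) (G i) := fun j i => rfl
  have hkey : ∀ i, bind₁ (fun j => C (u a j) + C P * X j) (itp f L i) =
      C (u a i) + C P * G i := by
    intro i
    have e1 : u (a + L) i = u a i + P ^ 2 * e i := by
      have := he i
      linear_combination this
    have e2 : ∑ j, C (pr f u a L i j) * (X j : MvPolynomial σ ℤ_[p]) =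
        X i + C P * ∑ j, C (b i j) * X j := by
      have e3 : ∀ j, C (pr f u a L i j) * (X j : MvPolynomial σ ℤ_[p]) =
          C ((1 : Matrix σ σ ℤ_[p]) i j) * X j + C P * (C (b i j) * X j) := by
        intro j
        have e4 : pr f u a L i j = (1 : Matrix σ σ ℤ_[p]) i j + P * b i j := by
          have := hb i j
          linear_combination this
        rw [e4, map_add, map_mul]
        ring
      rw [Finset.sum_congr rfl fun j _ => e3 j, Finset.sum_add_distrib, ← Finset.mul_sum]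
      congr 1
      rw [Finset.sum_eq_single i]
      · simp
      · intro j _ hj
        simp [Matrix.one_apply_ne (Ne.symm hj)]
      · intro h
        exact absurd (Finset.mem_univ _) h
    rw [hR i, e1, e2, map_add, map_mul, C_pow]
    simp only [G, H]
    ring
  have hyu : ∀ j i, u (a + L * j) i = u a i + P * y j i := by
    intro j
    induction j with
    | zero =>
      intro i
      change u (a + L * 0) i = u a i + P * 0
      simp
    | succ j ih =>
      intro i
      have e1 : a + L * (j + 1) = a + L * j + L := by ring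
      have e2 : u (a + L * j) = fun i => eval (y j) (C (u a i) + C P * X i) := by
        funext i
        rw [ih i]
        simp
      rw [e1, orbit_itp hu, e2, ← eval_bind, hkey i, hy]
      simp
  intro φ n j
  have e3 : (fun j => eval (u (a + L * j)) φ) =
      fun j => 1 * eval (y j) (bind₁ (fun j => C (u a j) + C P * X j) φ) := by
    funext j
    rw [eval_bind, one_mul]
    congr 1
    congr 1
    funext i
    rw [hyu j i]
    simp
  obtain ⟨ψ, hψ⟩ := df_dvd (G := G) (H := H) (fun i => rfl) hy n 1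
    (bind₁ (fun j => C (u a j) + C P * X j) φ)
  rw [e3, hψ, one_mul, hP, ← pow_mul]
  exact dvd_mul_right _ _

/-- Slowly growing integral functions on étale orbits are polynomial on progressions. -/
theorem poly_on_classes {p : ℕ} [Fact p.Prime] {f : σ → MvPolynomial σ ℤ_[p]} {u : ℕ → σ → ℤ_[p]}
    (hu : ∀ m i, u (m + 1) i = eval (u m) (f i))
    (hdet : ∀ m, ¬ (p : ℤ_[p]) ∣ (jac f (u m)).det) {ρ : ℝ} (hρ1 : 1 ≤ ρ)
    {d : ℕ} (hρ : 1 + ρ ^ (p ^ (d * (Fintype.card σ ^ 2 + 2 * Fintype.card σ))) < (p : ℝ) ^ d) :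
    ∃ a L : ℕ, 0 < L ∧ ∀ (Ψ : MvPolynomial σ ℤ_[p]) (w : ℕ → ℤ) (Cc : ℝ),
      (∀ m, (w m : ℤ_[p]) = eval (u m) Ψ) → (∀ m, |(w m : ℝ)| ≤ Cc * ρ ^ m) →
      ∀ (k : Type) [Field k] [CharZero k] (c : ℕ),
        ∃ q : Polynomial k, ∀ j : ℕ, ((w (a + c + L * j) : ℤ) : k) = q.eval (j : k) := by
  obtain ⟨a, L, hL, hL', hstar⟩ := star2 hu hdet d
  refine ⟨a, L, hL, fun Ψ w Cc hw hbd k _ _ c => ?_⟩
  have hρ0 : 0 < ρ := by linarith
  let g : ℕ → ℤ := fun j => w (a + c + L * j)
  have hg1 : ∀ n j, (p : ℤ) ^ (d * n) ∣ df n g j := by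
    intro n j
    have h1 := hstar (bind₁ (itp f c) Ψ) n j
    have h2 : (fun j => eval (u (a + L * j)) (bind₁ (itp f c) Ψ)) =
        fun j => (Int.castRingHom ℤ_[p]) (g j) := by
      funext j
      rw [eval_bind]
      change _ = ((w (a + c + L * j) : ℤ) : ℤ_[p])
      rw [hw]
      congr 1
      congr 1
      funext l
      rw [← orbit_itp hu]
      congr 1
      ring
    rw [h2, df_map] at h1
    have h3 := (PadicInt.pow_p_dvd_int_iff (d * n) (df n g j)).1 h1
    exact_mod_cast h3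
  have hg2 : ∀ j, |(g j : ℝ)| ≤ (|Cc| * ρ ^ (a + c)) * (ρ ^ L) ^ j := by
    intro j
    refine (hbd _).trans ?_
    rw [← pow_mul, pow_add, mul_assoc |Cc|]
    gcongr
    exact le_abs_self _
  have hg3 := df_bound (θ := ρ ^ L)
  have hlt : 1 + ρ ^ L < (p : ℝ) ^ d := by
    have : ρ ^ L ≤ ρ ^ (p ^ (d * (Fintype.card σ ^ 2 + 2 * Fintype.card σ))) :=
      pow_le_pow_right₀ hρ1 hL'
    linarith
  have hθ : 1 < (p : ℝ) ^ d / (1 + ρ ^ L) := by
    rw [lt_div_iff₀ (by positivity)]
    linarith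
  obtain ⟨n0, hn0⟩ := eventually_atTop.1
    ((tendsto_pow_atTop_atTop_of_one_lt hθ).eventually_gt_atTop (|Cc| * ρ ^ (a + c)))
  have hg4 : ∀ n ≥ n0, df n g 0 = 0 := by
    intro n hn
    refine Int.eq_zero_of_abs_lt_dvd (hg1 n 0) ?_
    have h1 := hg3 n g _ hg2 0
    rw [pow_zero, mul_one] at h1
    have h2 := hn0 n hn
    have h3 : |((df n g 0 : ℤ) : ℝ)| < ((p : ℝ) ^ d) ^ n := by
      calc |((df n g 0 : ℤ) : ℝ)| ≤ |Cc| * ρ ^ (a + c) * (1 + ρ ^ L) ^ n := h1
        _ < ((p : ℝ) ^ d / (1 + ρ ^ L)) ^ n * (1 + ρ ^ L) ^ n := by gcongr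
        _ = ((p : ℝ) ^ d) ^ n := by rw [← mul_pow, div_mul_cancel₀ _ (by positivity)]
    rw [← pow_mul] at h3
    have h4 : ((|df n g 0| : ℤ) : ℝ) < (((p : ℤ) ^ (d * n) : ℤ) : ℝ) := by
      push_cast
      exact h3
    exact_mod_cast h4
  have hg5 : ∀ j, df n0 g j = 0 := fun j => df_zero j _ fun i => by
    rw [← df_add]
    exact hg4 _ (by omega)
  refine poly_of_diff (N := n0) ?_
  rw [df_E]
  change df n0 (fun j => (Int.castRingHom k) (g j)) = 0
  rw [df_map]
  funext j
  rw [hg5 j]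
  simp

end Pool.Agent.X332.KI
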