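import Mathlib

/-! Orbits of integer polynomial maps which are étale modulo a prime: divisibility. -/

set_option autoImplicit false

namespace Pool.Agent.X332.KI

open MvPolynomial

variable {A : Type} [CommRing A] {σ : Type} [Fintype σ] [DecidableEq σ]

omit [Fintype σ] [DecidableEq σ] in
theorem eval_bind (v : σ → A) (G : σ → MvPolynomial σ A) (φ : MvPolynomial σ A) :
    eval v (bind₁ G φ) = eval (fun i => eval v (G i)) φ := by
  induction φ using MvPolynomial.induction_on with
  | C a => simp
  | add a b ha hb => rw [map_add, map_add, map_add, ha, hb]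
  | mul_X a i ha => rw [map_mul, map_mul, map_mul, ha, bind₁_X_right, eval_X]

omit [Fintype σ] [DecidableEq σ] in
theorem near_id {p : A} {G H : σ → MvPolynomial σ A} (hG : ∀ i, G i = X i + C p * H i)
    (φ : MvPolynomial σ A) : ∃ ψ, bind₁ G φ = φ + C p * ψ := by
  induction φ using MvPolynomial.induction_on with
  | C a => exact ⟨0, by simp⟩
  | add a b ha hb =>
    obtain ⟨x, hx⟩ := ha
    obtain ⟨y, hy⟩ := hb
    exact ⟨x + y, by rw [map_add, hx, hy]; ring⟩
  | mul_X a i ha =>
    obtain ⟨x, hx⟩ := ha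
    exact ⟨a * H i + x * X i + C p * x * H i, by rw [map_mul, hx, bind₁_X_right, hG]; ring⟩

omit [Fintype σ] [DecidableEq σ] in
theorem dvd_of_zeros [IsDomain A] {p : A} (hp : p ≠ 0) {G H : σ → MvPolynomial σ A}
    (hG : ∀ i, G i = X i + C p * H i) {y : ℕ → σ → A}
    (hy : ∀ j i, y (j + 1) i = eval (y j) (G i)) (k : ℕ) : ∀ φ : MvPolynomial σ A,
    (∀ j < k, eval (y j) φ = 0) → p ^ k ∣ eval (y k) φ := by
  induction k with
  | zero =>
    intro φ _
    simp
  | succ k ih =>
    intro φ h
    obtain ⟨ψ, hψ⟩ := near_id hG φ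
    have hd : ∀ j, eval (y (j + 1)) φ = eval (y j) φ + p * eval (y j) ψ := by
      intro j
      have h1 : y (j + 1) = fun i => eval (y j) (G i) := funext (hy j)
      rw [h1, ← eval_bind, hψ]
      simp
    have hz : ∀ j < k, eval (y j) ψ = 0 := by
      intro j hj
      have h1 := hd j
      rw [h (j + 1) (by omega), h j (by omega), zero_add] at h1
      exact (mul_eq_zero.1 h1.symm).resolve_left hp
    obtain ⟨c, hc⟩ := ih ψ hz
    refine ⟨c, ?_⟩
    rw [hd k, h k (by omega), zero_add, hc, pow_succ]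
    ring

theorem taylor (p : A) (c : σ → A) (Z : σ → MvPolynomial σ A) (φ : MvPolynomial σ A) :
    ∃ R, bind₁ (fun j => C (c j) + C p * Z j) φ =
      C (eval c φ) + C p * (∑ j, C (eval c (pderiv j φ)) * Z j) + C (p ^ 2) * R := by
  induction φ using MvPolynomial.induction_on with
  | C a => exact ⟨0, by simp⟩
  | add a b ha hb =>
    obtain ⟨x, hx⟩ := ha
    obtain ⟨y, hy⟩ := hb
    refine ⟨x + y, ?_⟩
    have h1 : ∑ j, C (eval c (pderiv j (a + b))) * Z j =
        ∑ j, C (eval c (pderiv j a)) * Z j + ∑ j, C (eval c (pderiv j b)) * Z j := by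
      rw [← Finset.sum_add_distrib]
      refine Finset.sum_congr rfl fun j _ => ?_
      rw [map_add, map_add, map_add, add_mul]
    rw [map_add, hx, hy, h1, map_add, map_add]
    ring
  | mul_X a i ha =>
    obtain ⟨R, hR⟩ := ha
    have h1 : ∑ j, C (eval c (pderiv j (a * X i))) * Z j =
        C (c i) * (∑ j, C (eval c (pderiv j a)) * Z j) + C (eval c a) * Z i := by
      have h2 : ∀ j, C (eval c (pderiv j (a * X i))) * Z j =
          C (c i) * (C (eval c (pderiv j a)) * Z j) +
            (if j = i then C (eval c a) * Z j else 0) := by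
        intro j
        rw [Derivation.leibniz, pderiv_X, smul_eq_mul, smul_eq_mul, map_add, map_mul, map_mul,
          eval_X]
        by_cases hj : j = i
        · subst hj
          simp only [Pi.single_eq_same, if_true, map_one, mul_one, map_add, map_mul]
          ring
        · rw [if_neg hj, Pi.single_eq_of_ne (Ne.symm hj)]
          simp only [map_zero, mul_zero, zero_add, map_mul, add_zero]
          ring
      rw [Finset.sum_congr rfl fun j _ => h2 j, Finset.sum_add_distrib, ← Finset.mul_sum,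
        Finset.sum_ite_eq' Finset.univ i]
      simp
    refine ⟨(∑ j, C (eval c (pderiv j a)) * Z j) * Z i + R * C (c i) + C p * R * Z i, ?_⟩
    rw [map_mul, hR, bind₁_X_right, h1, map_mul, eval_X, map_mul, C_pow]
    ring

/-- the iterates -/
noncomputable def itp (f : σ → MvPolynomial σ A) : ℕ → σ → MvPolynomial σ A
  | 0 => X
  | n + 1 => fun i => bind₁ (itp f n) (f i)

/-- the Jacobian matrix -/
noncomputable def jac (f : σ → MvPolynomial σ A) (v : σ → A) : Matrix σ σ A :=
  Matrix.of fun i j => eval v (pderiv j (f i))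

/-- products of Jacobian matrices along an orbit -/
noncomputable def pr (f : σ → MvPolynomial σ A) (u : ℕ → σ → A) (a : ℕ) : ℕ → Matrix σ σ A
  | 0 => 1
  | n + 1 => jac f (u (a + n)) * pr f u a n

variable {f : σ → MvPolynomial σ A} {u : ℕ → σ → A}

omit [Fintype σ] [DecidableEq σ] in
theorem orbit_itp (hu : ∀ m i, u (m + 1) i = eval (u m) (f i)) (m n : ℕ) (i : σ) :
    u (m + n) i = eval (u m) (itp f n i) := by
  induction n generalizing i with
  | zero => simp [itp]
  | succ n ih =>
    rw [itp, eval_bind, ← add_assoc, hu]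
    congr 1
    congr 1
    funext j
    exact ih j

theorem disc (p : A) (hu : ∀ m i, u (m + 1) i = eval (u m) (f i)) (a n : ℕ) (i : σ) :
    ∃ R, bind₁ (fun j => C (u a j) + C p * X j) (itp f n i) =
      C (u (a + n) i) + C p * (∑ j, C (pr f u a n i j) * X j) + C (p ^ 2) * R := by
  induction n generalizing i with
  | zero =>
    refine ⟨0, ?_⟩
    have h1 : ∑ j, C ((1 : Matrix σ σ A) i j) * (X j : MvPolynomial σ A) = X i := by
      rw [Finset.sum_eq_single i]
      · simp
      · intro j _ hj
        simp [Matrix.one_apply_ne (Ne.symm hj)]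
      · intro h
        exact absurd (Finset.mem_univ _) h
    rw [itp, bind₁_X_right, pr, h1, mul_zero, add_zero, add_zero]
  | succ n ih =>
    choose R hR using ih
    obtain ⟨R', hR'⟩ := taylor p (u (a + n))
      (fun j => ∑ l, C (pr f u a n j l) * X l + C p * R j) (f i)
    refine ⟨R' + ∑ j, C (jac f (u (a + n)) i j) * R j, ?_⟩
    rw [itp, bind₁_bind₁]
    have h1 : (fun j => bind₁ (fun j => C (u a j) + C p * X j) (itp f n j)) =
        fun j => C (u (a + n) j) + C p * (∑ l, C (pr f u a n j l) * X l + C p * R j) := by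
      funext j
      rw [hR j, C_pow]
      ring
    rw [h1, hR', pr, ← add_assoc a n 1, hu (a + n) i]
    have h2 : ∑ j, C (eval (u (a + n)) (pderiv j (f i))) *
        (∑ l, C (pr f u a n j l) * X l + C p * R j) =
        ∑ l, C ((jac f (u (a + n)) * pr f u a n) i l) * (X l : MvPolynomial σ A) +
          C p * ∑ j, C (jac f (u (a + n)) i j) * R j := by
      have h3 : ∀ l, C ((jac f (u (a + n)) * pr f u a n) i l) * (X l : MvPolynomial σ A) =
          ∑ j, C (jac f (u (a + n)) i j) * (C (pr f u a n j l) * X l) := by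
        intro l
        rw [Matrix.mul_apply, map_sum, Finset.sum_mul]
        refine Finset.sum_congr rfl fun j _ => ?_
        rw [map_mul]
        ring
      rw [Finset.sum_congr rfl fun l _ => h3 l, Finset.sum_comm, Finset.mul_sum,
        ← Finset.sum_add_distrib]
      refine Finset.sum_congr rfl fun j _ => ?_
      rw [← Finset.mul_sum]
      change C (jac f (u (a + n)) i j) * _ = _
      ring
    rw [h2, C_pow]
    ring

theorem pr_add (a n : ℕ) : pr f u 0 (a + n) = pr f u a n * pr f u 0 a := by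
  induction n with
  | zero => rw [add_zero, pr, Matrix.one_mul]
  | succ n ih =>
    rw [← add_assoc, pr, ih, pr, zero_add, Matrix.mul_assoc]

/-- congruence in the `p`-adic integers -/
theorem dvd_iff {p : ℕ} [Fact p.Prime] (n : ℕ) (a : ℤ_[p]) :
    (p : ℤ_[p]) ^ n ∣ a ↔ PadicInt.toZModPow n a = 0 := by
  rw [← Ideal.mem_span_singleton, ← PadicInt.ker_toZModPow, RingHom.mem_ker]

theorem dvd_iff' {p : ℕ} [Fact p.Prime] (a : ℤ_[p]) :
    (p : ℤ_[p]) ∣ a ↔ PadicInt.toZMod a = 0 := by
  rw [← Ideal.mem_span_singleton, ← PadicInt.maximalIdeal_eq_span_p, ← PadicInt.ker_toZMod,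
    RingHom.mem_ker]

theorem exists_period {p : ℕ} [Fact p.Prime] {f : σ → MvPolynomial σ ℤ_[p]} {u : ℕ → σ → ℤ_[p]}
    (hdet : ∀ m, ¬ (p : ℤ_[p]) ∣ (jac f (u m)).det) :
    ∃ a L : ℕ, 0 < L ∧ L ≤ p ^ (Fintype.card σ ^ 2 + 2 * Fintype.card σ) ∧
      (∀ i, (p : ℤ_[p]) ^ 2 ∣ u (a + L) i - u a i) ∧
      ∀ i j, (p : ℤ_[p]) ∣ pr f u a L i j - (1 : Matrix σ σ ℤ_[p]) i j := by
  have hp : p.Prime := Fact.out
  have : NeZero (p ^ 2) := ⟨pow_ne_zero _ hp.ne_zero⟩
  let Φ : ℕ → (σ → ZMod (p ^ 2)) × Matrix σ σ (ZMod p) := fun m =>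
    (fun i => PadicInt.toZModPow 2 (u m i), (PadicInt.toZMod (p := p)).mapMatrix (pr f u 0 m))
  have hcard : Fintype.card ((σ → ZMod (p ^ 2)) × Matrix σ σ (ZMod p)) =
      p ^ (Fintype.card σ ^ 2 + 2 * Fintype.card σ) := by
    have h1 : Fintype.card (Matrix σ σ (ZMod p)) = p ^ (Fintype.card σ ^ 2) := by
      change Fintype.card (σ → σ → ZMod p) = _
      rw [Fintype.card_fun, Fintype.card_fun, ZMod.card, ← pow_mul, sq]
    rw [Fintype.card_prod, h1, Fintype.card_fun, ZMod.card, ← pow_mul, ← pow_add, add_comm]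
  obtain ⟨a, b, hab, h⟩ := Fintype.exists_ne_map_eq_of_card_lt
    (fun m : Fin (Fintype.card ((σ → ZMod (p ^ 2)) × Matrix σ σ (ZMod p)) + 1) => Φ m) (by simp)
  wlog hlt : a < b generalizing a b
  · exact this b a hab.symm h.symm (lt_of_le_of_ne (not_lt.1 hlt) hab.symm)
  have hlt' : (a : ℕ) < b := hlt
  refine ⟨a, b - a, by omega, ?_, ?_, ?_⟩
  · have := b.2
    rw [← hcard]
    omega
  · intro i
    have h1 := congrFun (congrArg Prod.fst h) i
    change PadicInt.toZModPow 2 (u a i) = PadicInt.toZModPow 2 (u b i) at h1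
    rw [Nat.add_sub_cancel' hlt'.le, dvd_iff, map_sub, h1, sub_self]
  · have h1 := congrArg Prod.snd h
    change (PadicInt.toZMod (p := p)).mapMatrix (pr f u 0 a) =
      (PadicInt.toZMod (p := p)).mapMatrix (pr f u 0 b) at h1
    have hb : (b : ℕ) = a + (b - a) := by omega
    rw [hb, pr_add, map_mul] at h1
    have hd : ∀ n, ((PadicInt.toZMod (p := p)).mapMatrix (pr f u 0 n)).det ≠ 0 := by
      intro n
      induction n with
      | zero =>
        rw [pr, map_one, Matrix.det_one]
        exact one_ne_zero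
      | succ n ih =>
        rw [pr, map_mul, Matrix.det_mul]
        refine mul_ne_zero ?_ ih
        rw [← RingHom.map_det]
        intro h0
        exact hdet _ ((dvd_iff' _).2 h0)
    have h2 : (PadicInt.toZMod (p := p)).mapMatrix (pr f u a (b - a)) = 1 := by
      have hu' : IsUnit ((PadicInt.toZMod (p := p)).mapMatrix (pr f u 0 a)) :=
        (Matrix.isUnit_iff_isUnit_det _).2 (isUnit_iff_ne_zero.2 (hd a))
      exact (hu'.mul_right_cancel (by rw [one_mul]; exact h1)).symm
    intro i j
    have h3 := congrFun (congrFun h2 i) j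
    rw [RingHom.mapMatrix_apply, Matrix.map_apply] at h3
    rw [dvd_iff', map_sub, h3]
    by_cases hij : i = j
    · subst hij
      simp
    · rw [Matrix.one_apply_ne hij, Matrix.one_apply_ne hij, map_zero, sub_self]

/-- divisibility along arithmetic progressions -/
theorem star {p : ℕ} [Fact p.Prime] {f : σ → MvPolynomial σ ℤ_[p]} {u : ℕ → σ → ℤ_[p]}
    (hu : ∀ m i, u (m + 1) i = eval (u m) (f i))
    (hdet : ∀ m, ¬ (p : ℤ_[p]) ∣ (jac f (u m)).det) :
    ∃ a L : ℕ, 0 < L ∧ L ≤ p ^ (Fintype.card σ ^ 2 + 2 * Fintype.card σ) ∧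
      ∀ (φ : MvPolynomial σ ℤ_[p]) (k : ℕ), (∀ j < k, eval (u (a + L * j)) φ = 0) →
        (p : ℤ_[p]) ^ k ∣ eval (u (a + L * k)) φ := by
  have hp : p.Prime := Fact.out
  obtain ⟨a, L, hL, hL', h1, h2⟩ := exists_period hdet
  refine ⟨a, L, hL, hL', ?_⟩
  choose e he using h1
  choose b hb using h2
  choose R hR using disc (p : ℤ_[p]) hu a L
  let H : σ → MvPolynomial σ ℤ_[p] := fun i => C (e i) + ∑ j, C (b i j) * X j + R i
  let G : σ → MvPolynomial σ ℤ_[p] := fun i => X i + C (p : ℤ_[p]) * H i
  let y : ℕ → σ → ℤ_[p] := fun j => Nat.rec (fun _ => 0) (fun _ v i => eval v (G i)) j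
  have hy : ∀ j i, y (j + 1) i = eval (y j) (G i) := fun j i => rfl
  have hkey : ∀ i, bind₁ (fun j => C (u a j) + C (p : ℤ_[p]) * X j) (itp f L i) =
      C (u a i) + C (p : ℤ_[p]) * G i := by
    intro i
    have e1 : u (a + L) i = u a i + p ^ 2 * e i := by
      have := he i
      linear_combination this
    have e2 : ∑ j, C (pr f u a L i j) * (X j : MvPolynomial σ ℤ_[p]) =
        X i + C (p : ℤ_[p]) * ∑ j, C (b i j) * X j := by
      have e3 : ∀ j, C (pr f u a L i j) * (X j : MvPolynomial σ ℤ_[p]) =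
          C ((1 : Matrix σ σ ℤ_[p]) i j) * X j + C (p : ℤ_[p]) * (C (b i j) * X j) := by
        intro j
        have e4 : pr f u a L i j = (1 : Matrix σ σ ℤ_[p]) i j + p * b i j := by
          have := hb i j
          linear_combination this
        rw [e4, map_add, map_mul]
        ring
      rw [Finset.sum_congr rfl fun j _ => e3 j, Finset.sum_add_distrib, ← Finset.mul_sum]
      congr 1
      rw [Finset.sum_eq_single i]
      · simp
      · intro j _ hj
        simp [Matrix.one_apply_ne (Ne.symm hj)]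
      · intro h
        exact absurd (Finset.mem_univ _) h
    rw [hR i, e1, e2, map_add, map_mul, C_pow]
    simp only [G, H]
    ring
  have hyu : ∀ j i, u (a + L * j) i = u a i + p * y j i := by
    intro j
    induction j with
    | zero =>
      intro i
      change u (a + L * 0) i = u a i + p * 0
      simp
    | succ j ih =>
      intro i
      have e1 : a + L * (j + 1) = a + L * j + L := by ring
      have e2 : u (a + L * j) = fun i => eval (y j) (C (u a i) + C (p : ℤ_[p]) * X i) := by
        funext i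
        rw [ih i]
        simp
      rw [e1, orbit_itp hu, e2, ← eval_bind, hkey i, hy]
      simp
  intro φ k hk
  have e3 : ∀ j, eval (u (a + L * j)) φ =
      eval (y j) (bind₁ (fun j => C (u a j) + C (p : ℤ_[p]) * X j) φ) := by
    intro j
    rw [eval_bind]
    congr 1
    congr 1
    funext i
    rw [hyu j i]
    simp
  rw [e3]
  refine dvd_of_zeros (H := H) (by exact_mod_cast hp.ne_zero) (fun i => rfl) hy k _ fun j hj => ?_
  rw [← e3]
  exact hk j hj

end Pool.Agent.X332.KI
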