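import Pool.Agent.X332.KI.Disc

/-! Slowly growing integral orbits satisfy linear recurrences. -/

set_option autoImplicit false

namespace Pool.Agent.X332.KI

open MvPolynomial Filter

attribute [local instance] Matrix.seminormedAddCommGroup

/-- Siegel's lemma for a Hankel matrix. -/
theorem siegel {n : ℕ} (hn : 0 < n) {w : ℕ → ℤ} {B : ℝ} (hB : 1 ≤ B)
    (hw : ∀ j < 3 * n, |(w j : ℝ)| ≤ B) :
    ∃ t : Fin (2 * n) → ℤ, t ≠ 0 ∧ (∀ m < n, ∑ s, t s * w (m + s) = 0) ∧
      ∀ s, |(t s : ℝ)| ≤ 2 * n * B := by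
  let A : Matrix (Fin n) (Fin (2 * n)) ℤ := Matrix.of fun i j => w (i + j)
  obtain ⟨t, h1, h2, h3⟩ := Int.Matrix.exists_ne_zero_int_vec_norm_le A
    (by simp only [Fintype.card_fin]; omega) (by simpa using hn)
  have hA : ‖A‖ ≤ B := by
    rw [Matrix.norm_le_iff (by linarith)]
    intro i j
    rw [Int.norm_eq_abs]
    exact hw _ (by have := i.2; have := j.2; omega)
  have hexp : ((Fintype.card (Fin n) : ℝ) / (Fintype.card (Fin (2 * n)) - Fintype.card (Fin n)))
      = 1 := by
    simp only [Fintype.card_fin]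
    push_cast
    have : (n : ℝ) ≠ 0 := by
      have : (0 : ℝ) < n := by exact_mod_cast hn
      exact this.ne'
    have h4 : (2 * n - n : ℝ) = n := by ring
    rw [h4, div_self this]
  rw [hexp, Real.rpow_one] at h3
  refine ⟨t, h1, fun m hm => ?_, fun s => ?_⟩
  · have h4 := congrFun h2 ⟨m, hm⟩
    rw [Matrix.mulVec, dotProduct] at h4
    have h5 : ∑ s, t s * w (m + s) = ∑ i, A ⟨m, hm⟩ i * t i := by
      refine Finset.sum_congr rfl fun s _ => ?_
      rw [mul_comm]
      rfl
    rw [h5, h4]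
    rfl
  · have h4 := (norm_le_pi_norm t s).trans h3
    rw [Int.norm_eq_abs] at h4
    refine h4.trans ?_
    rw [Fintype.card_fin]
    push_cast
    gcongr
    exact max_le hB hA

theorem pick {A θ : ℝ} (hθ : 1 < θ) : ∃ J : ℕ, 1 ≤ J ∧ A * (J : ℝ) ^ 2 < θ ^ J := by
  have h1 := tendsto_pow_const_div_const_pow_of_one_lt 2 hθ
  have hc : (0 : ℝ) < 1 / (|A| + 1) := by positivity
  obtain ⟨J, h2, h3⟩ := ((h1.eventually (gt_mem_nhds hc)).and (eventually_ge_atTop 1)).exists
  refine ⟨J, h3, ?_⟩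
  have h4 : (0 : ℝ) < θ ^ J := by positivity
  rw [div_lt_div_iff₀ h4 (by positivity)] at h2
  have h5 : A ≤ |A| := le_abs_self A
  have h6 : (0 : ℝ) ≤ (J : ℝ) ^ 2 := by positivity
  nlinarith

variable {σ : Type} [Fintype σ] [DecidableEq σ]

/-- Slowly growing integral functions on étale orbits over the `p`-adic integers satisfy linear
recurrences with constant coefficients. -/
theorem recurrence {p : ℕ} [Fact p.Prime] {f : σ → MvPolynomial σ ℤ_[p]} {u : ℕ → σ → ℤ_[p]}
    (hu : ∀ m i, u (m + 1) i = eval (u m) (f i))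
    (hdet : ∀ m, ¬ (p : ℤ_[p]) ∣ (jac f (u m)).det) (Ψ : MvPolynomial σ ℤ_[p]) {w : ℕ → ℤ}
    (hΨ : ∀ m, (w m : ℤ_[p]) = eval (u m) Ψ) {Cc ρ : ℝ} (hρ1 : 1 ≤ ρ)
    (hρ : ρ ^ (6 * p ^ (Fintype.card σ ^ 2 + 2 * Fintype.card σ)) < p)
    (hbd : ∀ m, |(w m : ℝ)| ≤ Cc * ρ ^ m) :
    ∃ (n : ℕ) (c : Fin n → ℤ), c ≠ 0 ∧ ∃ a, ∀ m ≥ a, ∑ s, c s * w (m + s) = 0 := by
  obtain ⟨a, L, hL, hL', hstar⟩ := star hu hdet
  have hρ0 : 0 < ρ := by linarith
  set q : ℝ := ρ ^ (6 * L) with hq
  have hq0 : 0 < q := by positivity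
  have hqp : q < p := lt_of_le_of_lt (pow_le_pow_right₀ hρ1 (by omega)) hρ
  have hθ : 1 < (p : ℝ) / q := by rw [lt_div_iff₀ hq0]; linarith
  set C1 : ℝ := max Cc 1 * ρ ^ a with hC1
  have hC1' : 1 ≤ C1 := by
    have h1 : (1 : ℝ) ≤ ρ ^ a := one_le_pow₀ hρ1
    have h2 : (1 : ℝ) ≤ max Cc 1 := le_max_right _ _
    nlinarith
  have hw : ∀ m, |(w (a + m) : ℝ)| ≤ C1 * ρ ^ m := by
    intro m
    refine (hbd (a + m)).trans ?_
    rw [pow_add, hC1]
    calc Cc * (ρ ^ a * ρ ^ m) ≤ max Cc 1 * (ρ ^ a * ρ ^ m) := by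
          gcongr
          exact le_max_left _ _
      _ = max Cc 1 * ρ ^ a * ρ ^ m := by ring
  obtain ⟨J, hJ1, hJ⟩ := pick (A := 4 * (L : ℝ) ^ 2 * C1 ^ 2 * ρ ^ L) hθ
  set n := L * J with hn
  have hn0 : 0 < n := Nat.mul_pos hL hJ1
  have hB : (1 : ℝ) ≤ C1 * ρ ^ (3 * n) := by
    have h1 : (1 : ℝ) ≤ ρ ^ (3 * n) := one_le_pow₀ hρ1
    nlinarith
  obtain ⟨t, ht0, ht, htb⟩ := siegel hn0 (w := fun m => w (a + m)) hB (fun j hj =>
    (hw j).trans (by
      have h1 : ρ ^ j ≤ ρ ^ (3 * n) := pow_le_pow_right₀ hρ1 hj.le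
      gcongr))
  refine ⟨2 * n, t, ht0, a, ?_⟩
  let v : ℕ → ℤ := fun m => ∑ s, t s * w (a + (m + s))
  have hv : ∀ m, v m = 0 := by
    intro m
    induction m using Nat.strong_induction_on with
    | _ m ih =>
      rcases Nat.lt_or_ge m n with h1 | h1
      · exact ht m h1
      · set k := m / L with hk
        set i := m % L with hi
        have hm : m = L * k + i := (Nat.div_add_mod m L).symm
        have hiL : i < L := Nat.mod_lt _ hL
        have hJk : J ≤ k := by
          rw [hk, Nat.le_div_iff_mul_le hL, mul_comm]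
          exact h1
        have hpoly : ∀ j, ((v (L * j + i) : ℤ) : ℤ_[p]) =
            eval (u (a + L * j)) (∑ s : Fin (2 * n), C ((t s : ℤ) : ℤ_[p]) *
              bind₁ (itp f (i + s)) Ψ) := by
          intro j
          change ((∑ s, t s * w (a + (L * j + i + s)) : ℤ) : ℤ_[p]) = _
          push_cast
          rw [map_sum]
          refine Finset.sum_congr rfl fun s _ => ?_
          rw [map_mul, eval_C, eval_bind, hΨ]
          congr 2
          congr 1
          funext l
          rw [← orbit_itp hu]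
          congr 1
          ring
        have hdvd : (p : ℤ) ^ k ∣ v m := by
          have h3 : (p : ℤ_[p]) ^ k ∣ ((v m : ℤ) : ℤ_[p]) := by
            rw [hm, hpoly]
            refine hstar _ k fun j hj => ?_
            rw [← hpoly, ih, Int.cast_zero]
            have : L * j < L * k := Nat.mul_lt_mul_of_pos_left hj hL
            omega
          have h4 := (PadicInt.pow_p_dvd_int_iff k (v m)).1 h3
          exact_mod_cast h4
        have hsize : |(v m : ℝ)| < (p : ℝ) ^ k := by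
          have e1 : |(v m : ℝ)| ≤ ∑ s : Fin (2 * n), (2 * n * (C1 * ρ ^ (3 * n))) *
              (C1 * ρ ^ (m + 2 * n)) := by
            change |((∑ s, t s * w (a + (m + s)) : ℤ) : ℝ)| ≤ _
            push_cast
            refine (Finset.abs_sum_le_sum_abs _ _).trans (Finset.sum_le_sum fun s _ => ?_)
            rw [abs_mul]
            have e2 : |(w (a + (m + s)) : ℝ)| ≤ C1 * ρ ^ (m + 2 * n) := by
              refine (hw _).trans ?_
              have e3 : ρ ^ (m + (s : ℕ)) ≤ ρ ^ (m + 2 * n) :=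
                pow_le_pow_right₀ hρ1 (by have := s.2; omega)
              gcongr
            exact mul_le_mul (htb s) e2 (abs_nonneg _) (by positivity)
          have e4 : ∑ s : Fin (2 * n), (2 * n * (C1 * ρ ^ (3 * n))) *
              (C1 * ρ ^ (m + 2 * n)) = 4 * (n : ℝ) ^ 2 * C1 ^ 2 * ρ ^ (5 * n + m) := by
            rw [Finset.sum_const, Finset.card_univ, Fintype.card_fin, nsmul_eq_mul]
            have e5 : ρ ^ (5 * n + m) = ρ ^ (3 * n) * ρ ^ (m + 2 * n) := by
              rw [← pow_add]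
              congr 1
              ring
            rw [e5]
            push_cast
            ring
          have e6 : ρ ^ (5 * n + m) ≤ ρ ^ L * q ^ k := by
            rw [hq, ← pow_mul, ← pow_add]
            refine pow_le_pow_right₀ hρ1 ?_
            have e7 : n ≤ L * k := by
              rw [hn]
              exact Nat.mul_le_mul_left _ hJk
            have e8 : 6 * L * k = 6 * (L * k) := by ring
            rw [e8]
            omega
          have e9 : ((p : ℝ) / q) ^ J ≤ ((p : ℝ) / q) ^ k := pow_le_pow_right₀ hθ.le hJk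
          calc |(v m : ℝ)| ≤ 4 * (n : ℝ) ^ 2 * C1 ^ 2 * ρ ^ (5 * n + m) := e1.trans e4.le
            _ ≤ 4 * (n : ℝ) ^ 2 * C1 ^ 2 * (ρ ^ L * q ^ k) := by gcongr
            _ = (4 * (L : ℝ) ^ 2 * C1 ^ 2 * ρ ^ L * (J : ℝ) ^ 2) * q ^ k := by
                rw [hn]
                push_cast
                ring
            _ < ((p : ℝ) / q) ^ J * q ^ k := by gcongr
            _ ≤ ((p : ℝ) / q) ^ k * q ^ k := by gcongr
            _ = (p : ℝ) ^ k := by rw [← mul_pow, div_mul_cancel₀ _ hq0.ne']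
        refine Int.eq_zero_of_abs_lt_dvd hdvd ?_
        have e10 : ((|v m| : ℤ) : ℝ) < (((p : ℤ) ^ k : ℤ) : ℝ) := by
          push_cast
          exact hsize
        exact_mod_cast e10
  intro m hm
  obtain ⟨m', rfl⟩ := Nat.exists_eq_add_of_le hm
  rw [← hv m']
  refine Finset.sum_congr rfl fun s _ => ?_
  rw [add_assoc]

end Pool.Agent.X332.KI
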